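import Pool.Agent.Lib.MP_46788a_nt.Fin6

/-!
# Partition identities with difference conditions on the smaller part: comparison of solutions
-/

open Finset P46788a

namespace Pool.Agent.Results.MP_46788a_nt.Comparison

/-- If the gaps of one solution are everywhere at most those of another one (the moduli may be
different), then the first solution has the larger proportion `s / M` of residue classes, with
equality only if the gaps are the same. In particular, by comparison with the known solutions, the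
size of the gaps bounds `s / M` from both sides. -/
theorem result :
    (∀ (M M' : ℕ) (S S' : Finset ℕ) (b b' : ℕ → ℕ) (C C' : Finset ℕ),
      IsSol M S b C → IsSol M' S' b' C' → (∀ n, 1 ≤ n → b (cls M n) ≤ b' (cls M' n)) →
      S'.card * M ≤ S.card * M' ∧
        (S'.card * M = S.card * M' ↔ ∀ n, 1 ≤ n → b (cls M n) = b' (cls M' n))) ∧
    ∀ (M : ℕ) (S : Finset ℕ) (b : ℕ → ℕ) (C : Finset ℕ), IsSol M S b C →
      ((∀ j, 1 ≤ j → j ≤ M → b j ≤ 2) → 3 * M < 4 * S.card) ∧
      ((∀ j, 1 ≤ j → j ≤ M → 3 ≤ b j) → 4 * S.card < 3 * M) ∧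
      ((∀ j, 1 ≤ j → j ≤ M → b j ≤ 3) → 2 * M < 3 * S.card) ∧
      ((∀ j, 1 ≤ j → j ≤ M → 4 ≤ b j) → 3 * S.card < 2 * M) ∧
      ((∀ j, 1 ≤ j → j ≤ M → b j ≤ 6) → M < 2 * S.card) ∧
      ((∀ j, 1 ≤ j → j ≤ M → 7 ≤ b j) → 2 * S.card < M) :=
  ⟨fun _ _ _ _ _ _ _ _ h h' hle => sol_mono h h' hle, fun _ _ _ _ h => sol_density h⟩

end Pool.Agent.Results.MP_46788a_nt.Comparison
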