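import Pool.Agent.Lib.MP_46788a_nt.Fin5

/-!
# Partition identities with difference conditions on the smaller part: finiteness
-/

open Finset P46788a

namespace Pool.Agent.Results.MP_46788a_nt.Finiteness

/-- Only finitely many solutions `(M, S, b, C)` have `M ≤ N`, or have at most `N` residue classes
and either at most `N` excluded parts or no excluded part above `N M`; moreover
`M ≤ 2 ^ s - 1 + |C|` for every solution with `s` classes. -/
theorem result :
    (∀ N : ℕ, {x : ℕ × Finset ℕ × (ℕ → ℕ) × Finset ℕ | x ∈ AllSols ∧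
      (x.1 ≤ N ∨ (x.2.1.card ≤ N ∧ (x.2.2.2.card ≤ N ∨ ∀ c ∈ x.2.2.2, c ≤ N * x.1)))}.Finite) ∧
    ∀ (M : ℕ) (S : Finset ℕ) (b : ℕ → ℕ) (C : Finset ℕ), IsSol M S b C →
      M ≤ 2 ^ S.card - 1 + C.card := by
  refine ⟨fun N => ?_, fun M S b C h => ?_⟩
  · refine AllSols_finite _ (fun x hx => hx.1) (N + 1 + (2 ^ N + N) + 2 ^ ((N + 1) * N)) ?_
    have p1 : 1 ≤ 2 ^ N := Nat.one_le_two_pow
    have p2 : 1 ≤ 2 ^ ((N + 1) * N) := Nat.one_le_two_pow
    rintro x ⟨hx, hx1 | ⟨hs, hc | hc⟩⟩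
    · omega
    · have h1 := sol_mod hx.1
      have h2 : 2 ^ x.2.1.card ≤ 2 ^ N := Nat.pow_le_pow_right (by norm_num) hs
      omega
    · have h1 := sol_mod' hx.1 hc
      have h2 : 2 ^ ((N + 1) * x.2.1.card) ≤ 2 ^ ((N + 1) * N) :=
        Nat.pow_le_pow_right (by norm_num) (Nat.mul_le_mul_left _ hs)
      omega
  · have h1 := sol_mod h
    have h2 : 1 ≤ 2 ^ S.card := Nat.one_le_two_pow
    omega

end Pool.Agent.Results.MP_46788a_nt.Finiteness
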