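import Pool.Agent.Lib.MP_46788a_nt.One3
import Pool.Agent.Lib.MP_46788a_nt.Small

/-!
# Partition identities with difference conditions on the smaller part: one residue class
-/

set_option linter.unusedVariables false

open Finset P46788a

namespace Pool.Agent.Results.MP_46788a_nt.OneClass

/-- All solutions of `A(a_1, ..., a_s; M; n) = B_1(b_1, ..., b_M; M; C; n)` for which
`a_1, ..., a_s` lie in one residue class modulo `M`; `M ≥ 1` is arbitrary. -/
theorem result (M : ℕ) (S : Finset ℕ) (b : ℕ → ℕ) (C : Finset ℕ) (hM1 : 1 ≤ M)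
    (hS0 : S.Nonempty) (hS : ∀ a ∈ S, 1 ≤ a) (hone : ∀ a ∈ S, ∀ a' ∈ S, a ≡ a' [MOD M])
    (hb : ∀ j, 1 ≤ j → j ≤ M → 1 ≤ b j) (hC : ∀ c ∈ C, 1 ≤ c) :
    (∀ n, 1 ≤ n → countA S M n = countB b M C n) ↔
      (M = 1 ∧ b 1 = 1 ∧ C = ∅) ∨
      (M = 2 ∧ (∀ a ∈ S, a % 2 = 1) ∧ b 1 = 6 ∧ b 2 = 7 ∧ C = {2}) := by
  obtain ⟨a₀, ha₀⟩ := hS0
  constructor
  · intro h
    rcases Nat.lt_or_ge 5 M with hM | hM
    swap
    · -- small moduli
      have hL := (small_moduli M S b C hM1 hM ⟨a₀, ha₀⟩ hS hb hC).1 h
      have hcl : ∀ c ∈ S.image (cls M), ∀ c' ∈ S.image (cls M), c = c' := by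
        intro c hc c' hc'
        rw [Finset.mem_image] at hc hc'
        obtain ⟨a, ha, rfl⟩ := hc
        obtain ⟨a', ha', rfl⟩ := hc'
        rw [cls_eq hM1 (hS a ha), cls_eq hM1 (hS a' ha'), (hone a ha a' ha' : a % M = a' % M)]
      unfold Listed at hL
      rcases hL with ⟨h1, h2, h3⟩ | ⟨rfl, h2, h3, h4⟩ | ⟨rfl, h2, h3, h4⟩ | ⟨rfl, h2, h3, h4⟩ |
        ⟨rfl, h2, h3, h4⟩ | ⟨rfl, h2, h3, h4⟩ | ⟨rfl, h2, h3, h4⟩
      · left
        have h4 := hcl 1 (by rw [h1, Finset.mem_Icc]; omega) M (by rw [h1, Finset.mem_Icc]; omega)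
        exact ⟨h4.symm, h2 1 le_rfl hM1, h3⟩
      · right
        refine ⟨rfl, fun a ha => ?_, h3.1, h3.2, h4⟩
        have h5 : cls 2 a ∈ S.image (cls 2) := Finset.mem_image_of_mem _ ha
        rw [h2, Finset.mem_singleton, cls_eq (by norm_num) (hS a ha)] at h5
        split_ifs at h5 <;> omega
      · have := hcl 1 (by rw [h2]; simp) 2 (by rw [h2]; simp)
        omega
      · have := hcl 1 (by rw [h2]; simp) 3 (by rw [h2]; simp)
        omega
      · have := hcl 1 (by rw [h2]; simp) 2 (by rw [h2]; simp)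
        omega
      · have := hcl 1 (by rw [h2]; simp) 2 (by rw [h2]; simp)
        omega
      · have := hcl 2 (by rw [h2]; simp) 3 (by rw [h2]; simp)
        omega
    · -- large moduli
      exfalso
      obtain ⟨sm, _, hm⟩ := exists_mask M (fun r => ∃ a ∈ S, a % M = r)
      have hm : IsMask M sm S := hm
      obtain ⟨N₀, hN⟩ := PC_cofin C
      have hc : ∀ n, cnt (gr M (resb M b)) (PC C) n = cnt (fun _ => 1) (SP M sm) n := by
        intro n
        rcases Nat.eq_zero_or_pos n with h0 | h0
        · subst h0; exact count_zero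
        · rw [← cntB_eq hM1 hb, ← cntA_eq hM1 hm, h n h0]
      have hresb : ∀ r < M, 1 ≤ resb M b r := by
        intro r hr
        unfold resb
        split_ifs with h0
        · exact hb M hM1 le_rfl
        · exact hb r (by omega) hr.le
      have hbit : ∀ r < M, (Nat.testBit sm r = true ↔ r = a₀ % M) := by
        intro r hr
        rw [hm r hr]
        constructor
        · rintro ⟨a, ha, rfl⟩
          exact hone a ha a₀ ha₀
        · rintro rfl
          exact ⟨a₀, ha₀, rfl⟩
      have hlt := Nat.mod_lt a₀ (show 0 < M by omega)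
      by_cases hco : Nat.Coprime (a₀ % M) M
      · have hpos : 0 < a₀ % M := by
          rcases Nat.eq_zero_or_pos (a₀ % M) with h0 | h0
          · rw [h0, Nat.coprime_zero_left] at hco
            omega
          · exact h0
        have hSP : SP M sm = PA M (a₀ % M) := by
          funext x
          apply propext
          unfold PA
          rw [prog_iff hM1, Nat.mod_mod]
          unfold SP rs
          rw [hbit _ (Nat.mod_lt _ (by omega))]
          constructor
          · rintro ⟨h1, h2⟩
            exact ⟨by rw [← h1]; exact Nat.mod_le _ _, h1⟩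
          · rintro ⟨h1, h2⟩
            exact ⟨h2, by omega⟩
        rw [hSP] at hc
        refine one_false (M := M) (a := a₀ % M) (β1 := resb M b (a₀ % M))
          (β2 := resb M b ((2 * (a₀ % M)) % M)) (by omega) hpos hlt hco (fun i => ?_)
          (fun j => ?_) (hresb _ hlt) (hresb _ (Nat.mod_lt _ (by omega))) (fun x hx => hx.1) hN hc
        · unfold gr
          rw [Nat.add_mul_mod_self_right, Nat.mod_mod]
        · unfold gr
          rw [Nat.add_mul_mod_self_right]
      · have hg : 2 ≤ Nat.gcd (a₀ % M) M := by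
          have h1 : Nat.gcd (a₀ % M) M ≠ 1 := hco
          have h2 : 0 < Nat.gcd (a₀ % M) M := Nat.gcd_pos_of_pos_right _ (by omega)
          omega
        refine gcd_false (Nat.gcd (a₀ % M) M) hg hM1 (Nat.gcd_dvd_right _ _) hN hc ?_
        intro r hr hb
        rw [(hbit r hr).1 hb]
        exact Nat.gcd_dvd_left _ _
  · intro h
    have hM5 : M ≤ 5 := by rcases h with h | h <;> omega
    refine (small_moduli M S b C hM1 hM5 ⟨a₀, ha₀⟩ hS hb hC).2 ?_
    rcases h with ⟨rfl, h2, h3⟩ | ⟨rfl, h2, h3, h4, h5⟩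
    · left
      refine ⟨?_, fun j hj1 hj2 => ?_, h3⟩
      · ext c
        rw [Finset.mem_image, Finset.mem_Icc]
        constructor
        · rintro ⟨a, ha, rfl⟩
          unfold cls
          rw [Nat.mod_one]
          omega
        · rintro ⟨h4, h5⟩
          refine ⟨a₀, ha₀, ?_⟩
          unfold cls
          rw [Nat.mod_one]
          omega
      · have : j = 1 := by omega
        rw [this]; exact h2
    · right; left
      refine ⟨rfl, ?_, ⟨h3, h4⟩, h5⟩
      ext c
      rw [Finset.mem_image, Finset.mem_singleton]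
      constructor
      · rintro ⟨a, ha, rfl⟩
        rw [cls_eq (by norm_num) (hS a ha), h2 a ha]
        rfl
      · rintro rfl
        refine ⟨a₀, ha₀, ?_⟩
        rw [cls_eq (by norm_num) (hS a₀ ha₀), h2 a₀ ha₀]
        rfl

end Pool.Agent.Results.MP_46788a_nt.OneClass
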