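import Pool.Agent.Lib.MP_46788a_nt.Small

/-!
# Partition identities with difference conditions on the smaller part: all solutions with `M ≤ 5`
-/

open Finset P46788a

namespace Pool.Agent.Results.MP_46788a_nt.SmallModuli

/-- All solutions of `A(a_1, ..., a_s; M; n) = B_1(b_1, ..., b_M; M; C; n)` with `M ≤ 5`. -/
theorem result (M : ℕ) (S : Finset ℕ) (b : ℕ → ℕ) (C : Finset ℕ) (hM1 : 1 ≤ M) (hM5 : M ≤ 5)
    (hS0 : S.Nonempty) (hS : ∀ a ∈ S, 1 ≤ a) (hb : ∀ j, 1 ≤ j → j ≤ M → 1 ≤ b j)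
    (hC : ∀ c ∈ C, 1 ≤ c) :
    (∀ n, 1 ≤ n → countA S M n = countB b M C n) ↔ Listed M S b C :=
  small_moduli M S b C hM1 hM5 hS0 hS hb hC

end Pool.Agent.Results.MP_46788a_nt.SmallModuli
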